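import Mathlib

/-!
The braid group on `n` strands, its group algebra and the quotient `Z_n`.
-/

namespace Q17.ZN

/-- indices of the Artin generators `σ_1, …, σ_{n-1}` -/
abbrev Idx (n : ℕ) : Type := {i : ℕ // 1 ≤ i ∧ i < n}

open FreeGroup in
/-- The braid relations: `σ_i σ_{i+1} σ_i = σ_{i+1} σ_i σ_{i+1}` and `σ_i σ_j = σ_j σ_i` for
`j ≥ i + 2`, each written as a word that is set equal to `1`. -/
def braidRels (n : ℕ) : Set (FreeGroup (Idx n)) :=
  {w | ∃ i j : Idx n, i.1 + 1 = j.1 ∧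
    w = of i * of j * of i * (of j * of i * of j)⁻¹} ∪
  {w | ∃ i j : Idx n, i.1 + 2 ≤ j.1 ∧ w = of i * of j * (of j * of i)⁻¹}

/-- The braid group on `n` strands. -/
abbrev Braid (n : ℕ) : Type := PresentedGroup (braidRels n)

/-- The Artin generator `σ_i` of `B_n` for `1 ≤ i ≤ n - 1` (and `1` for other `i`). -/
def sigma (n i : ℕ) : Braid n :=
  if h : 1 ≤ i ∧ i < n then PresentedGroup.of ⟨i, h⟩ else 1

/-- `σ_{a … b} = σ_a σ_{a+1} ⋯ σ_b` (increasing indices). -/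
def up (n a b : ℕ) : Braid n := ((List.range' a (b + 1 - a)).map (sigma n)).prod

/-- `σ_{b … a} = σ_b σ_{b-1} ⋯ σ_a` (decreasing indices). -/
def down (n b a : ℕ) : Braid n := ((List.range' a (b + 1 - a)).map (sigma n)).reverse.prod

variable {R : Type} [CommRing R]

/-- `q^j \bar σ_{j…1} - σ_{1…j}` with a scalar `c` in place of `q^j`; so `E_j = diff 1 j (q^j)`. -/
noncomputable def diff (n a b : ℕ) (c : R) : MonoidAlgebra R (Braid n) :=
  c • MonoidAlgebra.of R (Braid n) (down n b a)⁻¹ - MonoidAlgebra.of R (Braid n) (up n a b)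

/-- `E_j = q^j \bar σ_{j…1} - σ_{1…j}`. -/
noncomputable def E (n : ℕ) (q : Rˣ) (j : ℕ) : MonoidAlgebra R (Braid n) :=
  diff n 1 j ((q : R) ^ j)

/-- `F_k = q^{k-1} \bar σ_{k…1} - σ_{1…k}`. -/
noncomputable def F (n : ℕ) (q : Rˣ) (k : ℕ) : MonoidAlgebra R (Braid n) :=
  diff n 1 k ((q : R) ^ (k - 1))

/-- `q \bar σ_i + 1 - q - σ_i`. -/
noncomputable def quad (n : ℕ) (q : Rˣ) (i : ℕ) : MonoidAlgebra R (Braid n) :=
  (q : R) • MonoidAlgebra.of R (Braid n) (sigma n i)⁻¹ + (1 - (q : R)) • 1 -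
    MonoidAlgebra.of R (Braid n) (sigma n i)

/-- `G_2 = q \bar σ_2 + 1 - q - σ_2` and `G_k = q^{k-1} \bar σ_{k…2} - σ_{2…k}` for `k ≥ 3`. -/
noncomputable def G (n : ℕ) (q : Rˣ) (k : ℕ) : MonoidAlgebra R (Braid n) :=
  if k = 2 then quad n q 2 else diff n 2 k ((q : R) ^ (k - 1))

/-- `X_2 = q \bar σ_1 + 1 - q - σ_1` and `X_k = E_{k-1} X_{k-1}` for `k ≥ 3` (the values at `0`
and `1` are never used). -/
noncomputable def X (n : ℕ) (q : Rˣ) : ℕ → MonoidAlgebra R (Braid n)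
  | 0 => 0
  | 1 => 0
  | 2 => quad n q 1
  | (k + 3) => E n q (k + 2) * X n q (k + 2)

/-- The two-sided ideal of `R B_n` generated by `(G_k - F_k) X_k`, `2 ≤ k ≤ n - 1`. -/
noncomputable def relIdeal (n : ℕ) (q : Rˣ) : TwoSidedIdeal (MonoidAlgebra R (Braid n)) :=
  TwoSidedIdeal.span {y | ∃ k, 2 ≤ k ∧ k ≤ n - 1 ∧ y = (G n q k - F n q k) * X n q k}

/-- The algebra `Z_n` over the commutative ring `R` with the unit `q`. -/
abbrev Z (n : ℕ) (q : Rˣ) : Type := (relIdeal n q).ringCon.Quotient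

/-- The quotient map `R B_n → Z_n`. -/
noncomputable def toZ (n : ℕ) (q : Rˣ) : MonoidAlgebra R (Braid n) →+* Z n q :=
  (relIdeal n q).ringCon.mk'

/-- The unit `q` of `ℤ[q, q⁻¹]`. -/
noncomputable def qUnit : (LaurentPolynomial ℤ)ˣ where
  val := LaurentPolynomial.T 1
  inv := LaurentPolynomial.T (-1)
  val_inv := by rw [← LaurentPolynomial.T_add]; simp
  inv_val := by rw [← LaurentPolynomial.T_add]; simp

end Q17.ZN
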