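import Pool.Agent.Q17.ZN.Defs

namespace Q17.ZN

open Equiv

theorem braid_swap (i : ℕ) : swap i (i + 1) * swap (i + 1) (i + 2) * swap i (i + 1) =
    swap (i + 1) (i + 2) * swap i (i + 1) * swap (i + 1) (i + 2) := by
  have h1 := Equiv.swap_mul_swap_mul_swap (x := i + 2) (y := i + 1) (z := i) (by omega) (by omega)
  have h2 := Equiv.swap_mul_swap_mul_swap (x := i) (y := i + 1) (z := i + 2) (by omega) (by omega)
  rw [h2, swap_comm i (i + 1), swap_comm (i + 1) (i + 2), h1, swap_comm]

theorem comm_swap {i j : ℕ} (h : i + 2 ≤ j) :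
    swap i (i + 1) * swap j (j + 1) = swap j (j + 1) * swap i (i + 1) := by
  have : Perm.Disjoint (swap i (i + 1)) (swap j (j + 1)) := by
    intro x
    by_cases h1 : x = i ∨ x = i + 1
    · right
      exact swap_apply_of_ne_of_ne (by omega) (by omega)
    · left
      exact swap_apply_of_ne_of_ne (by omega) (by omega)
  exact this.commute

/-- the permutation of a braid -/
def perm (n : ℕ) : Braid n →* Perm ℕ :=
  PresentedGroup.toGroup (f := fun i : Idx n => swap i.1 (i.1 + 1)) (by
    rintro w (⟨i, j, hij, rfl⟩ | ⟨i, j, hij, rfl⟩)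
    · simp only [map_mul, map_inv, FreeGroup.lift_apply_of]
      rw [mul_inv_eq_one, ← hij]
      exact braid_swap _
    · simp only [map_mul, map_inv, FreeGroup.lift_apply_of]
      rw [mul_inv_eq_one]
      exact comm_swap hij)

theorem perm_sigma {n i : ℕ} (h1 : 1 ≤ i) (h2 : i < n) : perm n (sigma n i) = swap i (i + 1) := by
  unfold sigma perm
  rw [dif_pos ⟨h1, h2⟩, PresentedGroup.toGroup.of]

theorem up_succ (n : ℕ) {a b : ℕ} (h : a ≤ b + 1) : up n a (b + 1) = up n a b * sigma n (b + 1) := by
  unfold up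
  have e : b + 1 + 1 - a = (b + 1 - a) + 1 := by omega
  rw [e, List.range'_concat, List.map_append, List.prod_append]
  congr 2
  simp
  congr 1
  omega

theorem perm_down_inv {n a b : ℕ} (ha : 1 ≤ a) (hb : b < n) :
    perm n (down n b a)⁻¹ = perm n (up n a b) := by
  unfold down up
  rw [List.prod_inv_reverse, List.map_reverse, List.reverse_reverse, List.map_map, map_list_prod,
    map_list_prod, List.map_map, List.map_map]
  congr 1
  refine List.map_congr_left fun x hx => ?_
  rw [List.mem_range'_1] at hx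
  simp only [Function.comp]
  rw [map_inv, perm_sigma (by omega) (by omega)]
  exact swap_inv _ _

theorem perm_up_apply {n a b x : ℕ} (ha : 1 ≤ a) (hb : b < n) (h1 : a ≤ x) (h2 : x ≤ b) :
    perm n (up n a b) x = x + 1 := by
  induction b with
  | zero => omega
  | succ b ih =>
    rw [up_succ n (by omega), map_mul, Perm.mul_apply, perm_sigma (by omega) hb]
    rcases Nat.lt_or_ge x (b + 1) with h | h
    · rw [swap_apply_of_ne_of_ne (by omega) (by omega)]
      exact ih (by omega) (by omega)
    · have hx : x = b + 1 := by omega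
      subst hx
      rw [swap_apply_left]
      -- higher letters are fixed
      clear h ih h2
      have key : ∀ c, c ≤ b → perm n (up n a c) (b + 1 + 1) = b + 1 + 1 := by
        intro c
        induction c with
        | zero =>
          intro _
          have : up n a 0 = 1 := by
            unfold up
            have : 0 + 1 - a = 0 := by omega
            rw [this]; simp
          rw [this]; simp
        | succ c ihc =>
          intro hc
          rcases Nat.lt_or_ge (c + 1) a with h3 | h3
          · have : up n a (c + 1) = 1 := by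
              unfold up
              have : c + 1 + 1 - a = 0 := by omega
              rw [this]; simp
            rw [this]; simp
          · rw [up_succ n (by omega), map_mul, Perm.mul_apply, perm_sigma (by omega) (by omega),
              swap_apply_of_ne_of_ne (by omega) (by omega)]
            exact ihc (by omega)
      exact key b le_rfl

variable {R : Type} [CommRing R]

/-- the permutation representation -/
noncomputable def rho (R : Type) [CommRing R] : Perm ℕ →* Module.End R (ℕ →₀ R) where
  toFun π := Finsupp.lmapDomain R R π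
  map_one' := by
    ext x : 2
    simp
  map_mul' π τ := by
    ext x : 2
    simp

theorem rho_single (π : Perm ℕ) (x : ℕ) (c : R) :
    rho R π (Finsupp.single x c) = Finsupp.single (π x) c := by
  change Finsupp.lmapDomain R R π _ = _
  simp

/-- the representation of the group algebra -/
noncomputable def Phi (R : Type) [CommRing R] (n : ℕ) :
    MonoidAlgebra R (Braid n) →ₐ[R] Module.End R (ℕ →₀ R) :=
  MonoidAlgebra.lift R (Module.End R (ℕ →₀ R)) (Braid n) ((rho R).comp (perm n))

theorem Phi_of (n : ℕ) (g : Braid n) : Phi R n (MonoidAlgebra.of R (Braid n) g) =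
    rho R (perm n g) := by
  simp [Phi]

/-- difference of two consecutive basis vectors -/
noncomputable def w (R : Type) [CommRing R] (k : ℕ) : ℕ →₀ R :=
  Finsupp.single k 1 - Finsupp.single (k + 1) 1

theorem rho_w (π : Perm ℕ) {k l : ℕ} (h1 : π k = l) (h2 : π (k + 1) = l + 1) :
    rho R π (w R k) = w R l := by
  unfold w
  rw [map_sub, rho_single, rho_single, h1, h2]

theorem Phi_diff {n a b : ℕ} (ha : 1 ≤ a) (hb : b < n) (hab : a < b) (c : R) :
    Phi R n (diff n a b c) (w R (b - 1)) = (c - 1) • w R b := by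
  obtain ⟨b, rfl⟩ : ∃ b', b = b' + 1 := ⟨b - 1, by omega⟩
  unfold diff
  rw [map_sub, map_smul, Phi_of, Phi_of, perm_down_inv ha hb]
  have h1 : rho R (perm n (up n a (b + 1))) (w R (b + 1 - 1)) = w R (b + 1) := by
    refine rho_w _ ?_ ?_
    · rw [perm_up_apply ha hb (by omega) (by omega)]
      omega
    · have e : b + 1 - 1 + 1 = b + 1 := by omega
      rw [e, perm_up_apply ha hb (by omega) (by omega)]
  simp only [LinearMap.sub_apply, LinearMap.smul_apply, h1]
  rw [sub_smul, one_smul]

theorem Phi_quad {n i : ℕ} (q : Rˣ) (h1 : 1 ≤ i) (h2 : i < n) (v : ℕ →₀ R) :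
    Phi R n (quad n q i) v = (1 - (q : R)) • (v - rho R (swap i (i + 1)) v) := by
  unfold quad
  rw [map_sub, map_add, map_smul, map_smul, Phi_of, Phi_of, map_inv, perm_sigma h1 h2, swap_inv,
    map_one]
  simp only [LinearMap.sub_apply, LinearMap.smul_apply, LinearMap.add_apply, Module.End.one_apply]
  module

theorem quad_image {n i : ℕ} (q : Rˣ) (h1 : 1 ≤ i) (h2 : i < n) (v : ℕ →₀ R) :
    ∃ c : R, Phi R n (quad n q i) v = c • w R i := by
  have key : ∃ c : R, v - rho R (swap i (i + 1)) v = c • w R i := by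
    induction v using Finsupp.induction_linear with
    | zero => exact ⟨0, by simp⟩
    | add f g hf hg =>
      obtain ⟨c, hc⟩ := hf
      obtain ⟨d, hd⟩ := hg
      refine ⟨c + d, ?_⟩
      rw [map_add, add_smul, ← hc, ← hd]
      abel
    | single x r =>
      rw [rho_single]
      by_cases hx : x = i
      · subst hx
        refine ⟨r, ?_⟩
        rw [swap_apply_left, w, smul_sub]
        simp
      · by_cases hx' : x = i + 1
        · subst hx'
          refine ⟨-r, ?_⟩
          rw [swap_apply_right, w, smul_sub]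
          simp
          abel
        · refine ⟨0, ?_⟩
          rw [swap_apply_of_ne_of_ne hx hx']
          simp
  obtain ⟨c, hc⟩ := key
  refine ⟨(1 - (q : R)) * c, ?_⟩
  rw [Phi_quad q h1 h2, hc, mul_smul]

theorem X_image {n : ℕ} (q : Rˣ) (k : ℕ) (hk : k + 2 ≤ n) (v : ℕ →₀ R) :
    ∃ c : R, Phi R n (X n q (k + 2)) v = c • w R (k + 1) := by
  induction k with
  | zero => exact quad_image q le_rfl (by omega) v
  | succ k ih =>
    obtain ⟨c, hc⟩ := ih (by omega)
    have e : X n q (k + 1 + 2) = E n q (k + 2) * X n q (k + 2) := rfl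
    rw [e, map_mul, Module.End.mul_apply, hc, map_smul]
    have h := Phi_diff (R := R) (n := n) (a := 1) (b := k + 2) le_rfl (by omega) (by omega)
      ((q : R) ^ (k + 2))
    have e2 : k + 2 - 1 = k + 1 := by omega
    rw [e2] at h
    unfold E
    rw [h]
    exact ⟨c * ((q : R) ^ (k + 2) - 1), by rw [mul_smul]⟩

theorem rel_vanish {n : ℕ} (q : Rˣ) {k : ℕ} (h1 : 2 ≤ k) (h2 : k ≤ n - 1) :
    Phi R n ((G n q k - F n q k) * X n q k) = 0 := by
  have hkn : k < n := by omega
  refine LinearMap.ext fun v => ?_
  rw [map_mul, Module.End.mul_apply]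
  obtain ⟨k, rfl⟩ : ∃ k', k = k' + 2 := ⟨k - 2, by omega⟩
  obtain ⟨c, hc⟩ := X_image (n := n) q k (by omega) v
  rw [hc, map_smul, map_sub, LinearMap.sub_apply]
  have hF : Phi R n (F n q (k + 2)) (w R (k + 1)) = ((q : R) ^ (k + 1) - 1) • w R (k + 2) := by
    have h := Phi_diff (R := R) (n := n) (a := 1) (b := k + 2) le_rfl (by omega) (by omega)
      ((q : R) ^ (k + 2 - 1))
    have e2 : k + 2 - 1 = k + 1 := by omega
    rw [e2] at h
    unfold F
    rw [e2, h]
  have hG : Phi R n (G n q (k + 2)) (w R (k + 1)) = ((q : R) ^ (k + 1) - 1) • w R (k + 2) := by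
    unfold G
    split_ifs with hk0
    · have hk : k = 0 := by omega
      subst hk
      rw [Phi_quad q (by omega) (by omega)]
      have : w R (0 + 1) - rho R (swap 2 (2 + 1)) (w R (0 + 1)) = - w R (0 + 2) := by
        unfold w
        rw [map_sub, rho_single, rho_single]
        have s1 : swap 2 (2 + 1) (0 + 1) = 1 := swap_apply_of_ne_of_ne (by omega) (by omega)
        have s2 : swap 2 (2 + 1) (0 + 1 + 1) = 3 := swap_apply_left _ _
        rw [s1, s2]
        norm_num
      rw [this, smul_neg, ← neg_smul]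
      congr 1
      ring
    · have h := Phi_diff (R := R) (n := n) (a := 2) (b := k + 2) (by omega) (by omega) (by omega)
        ((q : R) ^ (k + 2 - 1))
      have e2 : k + 2 - 1 = k + 1 := by omega
      rw [e2] at h
      rw [e2, h]
  rw [hF, hG, sub_self, smul_zero, LinearMap.zero_apply]

theorem X3_ne {n : ℕ} (hn : 3 ≤ n) (q : Rˣ) (hq : (1 - (q : R)) * ((q : R) ^ 2 - 1) ≠ 0) :
    Phi R n (X n q 3) ≠ 0 := by
  intro h0
  have h1 : Phi R n (X n q 3) (Finsupp.single 1 1) = 0 := by rw [h0]; rfl
  have e : X n q 3 = E n q 2 * X n q 2 := rfl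
  have e' : X n q 2 = quad n q 1 := rfl
  rw [e, e', map_mul, Module.End.mul_apply, Phi_quad q le_rfl (by omega), rho_single,
    swap_apply_left] at h1
  have h2 : (Finsupp.single 1 1 - Finsupp.single (1 + 1) 1 : ℕ →₀ R) = w R 1 := rfl
  rw [h2, map_smul] at h1
  have h := Phi_diff (R := R) (n := n) (a := 1) (b := 2) le_rfl (by omega) (by omega)
      ((q : R) ^ 2)
  have e3 : 2 - 1 = 1 := rfl
  rw [e3] at h
  unfold E at h1
  rw [h, smul_smul] at h1
  have h3 := DFunLike.congr_fun h1 2
  apply hq
  simpa [w] using h3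

theorem X3_notMem {n : ℕ} (hn : 3 ≤ n) (q : Rˣ) (hq : (1 - (q : R)) * ((q : R) ^ 2 - 1) ≠ 0) :
    toZ n q (X n q 3) ≠ 0 := by
  intro h
  have h1 : X n q 3 ∈ TwoSidedIdeal.ker (relIdeal n q).ringCon.mk' := by
    rw [TwoSidedIdeal.mem_ker]
    exact h
  rw [TwoSidedIdeal.ker_ringCon_mk'] at h1
  have h2 : relIdeal n q ≤ TwoSidedIdeal.ker (Phi R n) := by
    unfold relIdeal
    rw [TwoSidedIdeal.span_le]
    rintro y ⟨k, hk1, hk2, rfl⟩
    rw [SetLike.mem_coe, TwoSidedIdeal.mem_ker]
    exact rel_vanish q hk1 hk2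
  have h3 := h2 h1
  rw [TwoSidedIdeal.mem_ker] at h3
  exact X3_ne hn q hq h3

theorem qUnit_ok : (1 - (qUnit : LaurentPolynomial ℤ)) * ((qUnit : LaurentPolynomial ℤ) ^ 2 - 1) ≠ 0 := by
  have hv : ((qUnit : (LaurentPolynomial ℤ)ˣ) : LaurentPolynomial ℤ) =
      Polynomial.toLaurent Polynomial.X := (Polynomial.toLaurent_X).symm
  intro h
  rw [hv, ← map_one Polynomial.toLaurent, ← map_pow, ← map_sub, ← map_sub, ← map_mul] at h
  have h1 : (1 - Polynomial.X) * (Polynomial.X ^ 2 - 1) = (0 : Polynomial ℤ) := by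
    apply Polynomial.toLaurent_injective
    rw [h, map_zero]
  have h2 := congrArg (Polynomial.eval 2) h1
  norm_num at h2

end Q17.ZN
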